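import Pool.Agent.Run7.h135.XK.Defs
import Pool.Agent.TH841.NF.Conc
import Pool.Agent.TH841.SH.Kum

/-!
# Curves with full 2-torsion over a field: base change, the action on the points of order two, quadratic characters
-/

set_option autoImplicit false

open WeierstrassCurve

namespace Run7.h919.XK

open Pool.Agent.TH841.SH.D (Pt act Gal Coch IsCoc IsCob LocTriv cob)
open Pool.Agent.TH841.SH (IsR IsX isX_zero isX_some not_isX fix_mem)
open Pool.Agent.TH841.NF (coc_fin coc_of_fin act_some')
open Run7.h135.XK (tp Fl Cc)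

variable {k : Type} [Field k]

lemma base {W : WeierstrassCurve k} {a b c : k} (h : IsR W a b c) (L : Type) [Field L]
    [Algebra k L] : IsR (W.baseChange L) (algebraMap k L a) (algebraMap k L b)
      (algebraMap k L c) where
  h1 := by
    show algebraMap k L W.a₁ = 0
    rw [h.h1, map_zero]
  h2 := by
    show algebraMap k L W.a₂ = _
    rw [h.h2, map_neg, map_add, map_add]
  h3 := by
    show algebraMap k L W.a₃ = 0
    rw [h.h3, map_zero]
  h4 := by
    show algebraMap k L W.a₄ = _
    rw [h.h4, map_add, map_add, map_mul, map_mul, map_mul]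
  h6 := by
    show algebraMap k L W.a₆ = _
    rw [h.h6, map_neg, map_mul, map_mul]

lemma act_isX (W : WeierstrassCurve k) {F L : Type} [Field F] [Field L] [Algebra k F]
    [Algebra k L] (φ : F →ₐ[k] L) (e : k) (T : Pt W F) :
    IsX (W.baseChange L) (algebraMap k L e) (act W φ T) ↔
      IsX (W.baseChange F) (algebraMap k F e) T := by
  rcases T with _ | ⟨x, y, h⟩
  · exact ⟨fun _ => Or.inl rfl, fun _ => Or.inl rfl⟩
  · by_cases hx : x = algebraMap k F e
    · subst hx
      refine ⟨fun _ => isX_some h, fun _ => ?_⟩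
      rw [act_some']
      right
      refine ⟨φ y, ?_, ?_⟩
      · have := (Affine.baseChange_nonsingular W (f := φ) φ.injective _ _).mpr h
        rwa [φ.commutes] at this
      · congr 1
        exact φ.commutes e
    · refine ⟨fun h' => absurd h' ?_, fun h' => absurd h' (not_isX h hx)⟩
      rw [act_some']
      apply not_isX
      intro h2
      apply hx
      apply φ.injective
      show φ x = φ (algebraMap k F e)
      rw [h2, φ.commutes]

lemma alg_ne {L : Type} [Field L] [Algebra k L] {a b : k} (h : a ≠ b) :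
    algebraMap k L a ≠ algebraMap k L b :=
  fun h' => h ((algebraMap k L).injective h')

/-- a point of order two is determined by the pairings -/
lemma pt_ext2 {W : WeierstrassCurve k} {a b c : k} (h : IsR W a b c) (hab : a ≠ b) (hac : a ≠ c)
    (hbc : b ≠ c) {L : Type} [Field L] [CharZero L] [Algebra k L] {T T' : Pt W L} (hT : T + T = 0)
    (hT' : T' + T' = 0)
    (h1 : IsX (W.baseChange L) (algebraMap k L a) T ↔ IsX (W.baseChange L) (algebraMap k L a) T')
    (h3 : IsX (W.baseChange L) (algebraMap k L b) T ↔ IsX (W.baseChange L) (algebraMap k L b) T') :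
    T = T' := by
  let _ : DecidableEq L := Classical.decEq L
  exact (base h L).ext two_ne_zero (alg_ne hab) (alg_ne hac) (alg_ne hbc) hT hT' h1 h3

/-- the pairing with a point of order two is additive -/
lemma pt_add2 {W : WeierstrassCurve k} {a b c : k} (h : IsR W a b c) (hab : a ≠ b) (hac : a ≠ c)
    (hbc : b ≠ c) {L : Type} [Field L] [CharZero L] [Algebra k L] {T T' : Pt W L} (hT : T + T = 0)
    (hT' : T' + T' = 0) :
    IsX (W.baseChange L) (algebraMap k L a) (T + T') ↔
      (IsX (W.baseChange L) (algebraMap k L a) T ↔ IsX (W.baseChange L) (algebraMap k L a) T') := by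
  let _ : DecidableEq L := Classical.decEq L
  exact (base h L).isX_add two_ne_zero (alg_ne hab) (alg_ne hac) (alg_ne hbc) hT hT'

/-- points of order two are fixed -/
lemma act_two {W : WeierstrassCurve k} {a b c : k} (h : IsR W a b c) (hab : a ≠ b) (hac : a ≠ c)
    (hbc : b ≠ c) {L : Type} [Field L] [CharZero L] [Algebra k L] (φ : L →ₐ[k] L) {T : Pt W L}
    (hT : T + T = 0) : act W φ T = T :=
  pt_ext2 h hab hac hbc (by rw [← map_add, hT, map_zero]) hT (act_isX W φ a T) (act_isX W φ b T)

/-- the points of order two -/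
lemma tp_eq {W : WeierstrassCurve k} {a b c : k} (h : IsR W a b c) (hab : a ≠ b) (hac : a ≠ c)
    (hbc : b ≠ c) (L : Type) [Field L] [CharZero L] [Algebra k L] :
    ∃ hn : (W.baseChange L).toAffine.Nonsingular (algebraMap k L a) 0,
      tp W L a = (Affine.Point.some _ _ hn : Pt W L) := by
  have hn : (W.baseChange L).toAffine.Nonsingular (algebraMap k L a) 0 :=
    (base h L).nons two_ne_zero (alg_ne hab) (alg_ne hac) (alg_ne hbc) (by ring)
  exact ⟨hn, dif_pos hn⟩

lemma tp_two {W : WeierstrassCurve k} {a b c : k} (h : IsR W a b c) (hab : a ≠ b) (hac : a ≠ c)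
    (hbc : b ≠ c) (L : Type) [Field L] [CharZero L] [Algebra k L] :
    tp W L a + tp W L a = 0 := by
  let _ : DecidableEq L := Classical.decEq L
  obtain ⟨hn, e⟩ := tp_eq h hab hac hbc L
  rw [e]
  exact ((base h L).add_self two_ne_zero hn).2 rfl

lemma tp_isX {W : WeierstrassCurve k} {a b c : k} (h : IsR W a b c) (hab : a ≠ b) (hac : a ≠ c)
    (hbc : b ≠ c) (L : Type) [Field L] [CharZero L] [Algebra k L] :
    IsX (W.baseChange L) (algebraMap k L a) (tp W L a) := by
  obtain ⟨hn, e⟩ := tp_eq h hab hac hbc L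
  rw [e]
  exact isX_some hn

lemma tp_not_isX {W : WeierstrassCurve k} {a b c : k} (h : IsR W a b c) (hab : a ≠ b) (hac : a ≠ c)
    (hbc : b ≠ c) (L : Type) [Field L] [CharZero L] [Algebra k L] (d : k) (hd : a ≠ d) :
    ¬ IsX (W.baseChange L) (algebraMap k L d) (tp W L a) := by
  obtain ⟨hn, e⟩ := tp_eq h hab hac hbc L
  rw [e]
  exact not_isX hn (alg_ne hd)

/-- the values of the cocycle have order two -/
lemma Cc_two {W : WeierstrassCurve k} [CharZero k] {e0 e1 e2 : k} (h : IsR W e0 e1 e2)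
    (h01 : e0 ≠ e1) (h02 : e0 ≠ e2) (h12 : e1 ≠ e2) (a b : k) (σ : Gal k) :
    Cc W e0 e1 a b σ + Cc W e0 e1 a b σ = 0 := by
  have t0 := tp_two h h01 h02 h12 (AlgebraicClosure k)
  have t1 := tp_two h.swap h01.symm h12 h02 (AlgebraicClosure k)
  have e : ∀ x y : Pt W (AlgebraicClosure k), x + y + (x + y) = (x + x) + (y + y) := fun x y => by abel
  unfold Cc
  rw [e]
  by_cases ha : Fl a σ <;> by_cases hb : Fl b σ <;> simp only [ha, hb, if_true, if_false, t0, t1, add_zero]

lemma Cc_isX0 {W : WeierstrassCurve k} [CharZero k] {e0 e1 e2 : k} (h : IsR W e0 e1 e2)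
    (h01 : e0 ≠ e1) (h02 : e0 ≠ e2) (h12 : e1 ≠ e2) (a b : k) (σ : Gal k) :
    IsX (W.baseChange (AlgebraicClosure k)) (algebraMap k _ e0) (Cc W e0 e1 a b σ) ↔ ¬ Fl a σ := by
  have t0 := tp_two h h01 h02 h12 (AlgebraicClosure k)
  have t1 := tp_two h.swap h01.symm h12 h02 (AlgebraicClosure k)
  have x0 := tp_isX h h01 h02 h12 (AlgebraicClosure k)
  have x1 := tp_not_isX h.swap h01.symm h12 h02 (AlgebraicClosure k) e0 h01.symm
  have z : IsX (W.baseChange (AlgebraicClosure k)) (algebraMap k _ e0) (0 : Pt W (AlgebraicClosure k)) :=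
    isX_zero _
  have zz : (0 : Pt W (AlgebraicClosure k)) + 0 = 0 := add_zero _
  unfold Cc
  by_cases ha : Fl a σ <;> by_cases hb : Fl b σ <;> simp only [ha, hb, if_true, if_false]
  · rw [pt_add2 h h01 h02 h12 t1 t0]
    tauto
  · rw [pt_add2 h h01 h02 h12 t1 zz]
    tauto
  · rw [pt_add2 h h01 h02 h12 zz t0]
    exact ⟨fun _ => not_false, fun _ => ⟨fun _ => x0, fun _ => z⟩⟩
  · rw [pt_add2 h h01 h02 h12 zz zz]
    tauto

lemma Cc_isX1 {W : WeierstrassCurve k} [CharZero k] {e0 e1 e2 : k} (h : IsR W e0 e1 e2)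
    (h01 : e0 ≠ e1) (h02 : e0 ≠ e2) (h12 : e1 ≠ e2) (a b : k) (σ : Gal k) :
    IsX (W.baseChange (AlgebraicClosure k)) (algebraMap k _ e1) (Cc W e0 e1 a b σ) ↔ ¬ Fl b σ := by
  have t0 := tp_two h h01 h02 h12 (AlgebraicClosure k)
  have t1 := tp_two h.swap h01.symm h12 h02 (AlgebraicClosure k)
  have x0 := tp_not_isX h h01 h02 h12 (AlgebraicClosure k) e1 h01
  have x1 := tp_isX h.swap h01.symm h12 h02 (AlgebraicClosure k)
  have z : IsX (W.baseChange (AlgebraicClosure k)) (algebraMap k _ e1) (0 : Pt W (AlgebraicClosure k)) :=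
    isX_zero _
  have zz : (0 : Pt W (AlgebraicClosure k)) + 0 = 0 := add_zero _
  unfold Cc
  by_cases ha : Fl a σ <;> by_cases hb : Fl b σ <;> simp only [ha, hb, if_true, if_false]
  · rw [pt_add2 h.swap h01.symm h12 h02 t1 t0]
    tauto
  · rw [pt_add2 h.swap h01.symm h12 h02 t1 zz]
    exact ⟨fun _ => not_false, fun _ => ⟨fun _ => z, fun _ => x1⟩⟩
  · rw [pt_add2 h.swap h01.symm h12 h02 zz t0]
    tauto
  · rw [pt_add2 h.swap h01.symm h12 h02 zz zz]
    tauto

/-- quadratic characters of the absolute Galois group of a field of characteristic zero -/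
theorem kum [CharZero k] (χ : Gal k → Bool) (hc : IsLocallyConstant χ)
    (hm : ∀ σ τ, χ (σ * τ) = xor (χ σ) (χ τ)) :
    ∃ e : k, e ≠ 0 ∧ ∀ s : AlgebraicClosure k, s ^ 2 = algebraMap k _ e →
      ∀ σ : Gal k, σ s = s ↔ χ σ = false := by
  have h1 : χ 1 = false := by
    have := hm 1 1
    rw [mul_one] at this
    cases h : χ 1 <;> simp_all
  have hinv : ∀ σ, χ σ⁻¹ = χ σ := by
    intro σ
    have := hm σ σ⁻¹
    rw [mul_inv_cancel, h1] at this
    generalize χ σ = u at this ⊢
    generalize χ σ⁻¹ = v at this ⊢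
    revert u v
    decide
  by_cases htriv : ∀ σ, χ σ = false
  · refine ⟨1, one_ne_zero, fun s hs σ => ?_⟩
    simp only [htriv σ, iff_true]
    have hs' : s ^ 2 = 1 := by rw [hs, map_one]
    rcases sq_eq_one_iff.1 hs' with h | h
    · rw [h, map_one]
    · rw [h, map_neg, map_one]
  push Not at htriv
  obtain ⟨τ, hτ⟩ := htriv
  have hτ' : χ τ = true := by simpa using hτ
  let N : Subgroup (Gal k) :=
    { carrier := {σ | χ σ = false}
      one_mem' := h1
      mul_mem' := by
        intro a b ha hb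
        simp only [Set.mem_ofPred_eq] at ha hb ⊢
        rw [hm, ha, hb]
        rfl
      inv_mem' := by
        intro a ha
        simp only [Set.mem_ofPred_eq] at ha ⊢
        rw [hinv, ha] }
  have hN : ∀ σ, σ ∈ N ↔ χ σ = false := fun σ => Iff.rfl
  have hcl : IsClosed (N : Set (Gal k)) := by
    have : (N : Set (Gal k)) = χ ⁻¹' {false} := by
      ext σ
      simp [hN]
    rw [this]
    exact hc.isClosed_fiber false
  let N' : ClosedSubgroup (Gal k) := { N with isClosed' := hcl }
  have hfix := InfiniteGalois.fixingSubgroup_fixedField (k := k) (K := AlgebraicClosure k) N'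
  -- an element of the fixed field that is not in `k`
  obtain ⟨x, hx, hxτ⟩ : ∃ x : AlgebraicClosure k, (∀ σ : Gal k, χ σ = false → σ x = x) ∧ τ x ≠ x := by
    by_contra hcon
    push Not at hcon
    have h2 : τ ∈ (IntermediateField.fixedField N'.toSubgroup).fixingSubgroup := by
      rw [IntermediateField.mem_fixingSubgroup_iff]
      intro x hx
      rw [IntermediateField.mem_fixedField_iff] at hx
      exact hcon x (fun σ hσ => hx σ hσ)
    rw [hfix] at h2
    exact hτ h2
  set s := x - τ x with hs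
  have hs0 : s ≠ 0 := fun h => hxτ (sub_eq_zero.1 h).symm
  have hfixτ : ∀ σ : Gal k, χ σ = false → σ (τ x) = τ x := by
    intro σ hσ
    have h2 : χ (τ⁻¹ * σ * τ) = false := by
      rw [hm, hm, hinv, hσ, hτ']
      rfl
    have h3 := hx _ h2
    rw [AlgEquiv.mul_apply, AlgEquiv.mul_apply] at h3
    have h4 := congrArg τ h3
    rw [← AlgEquiv.mul_apply τ τ⁻¹, mul_inv_cancel, AlgEquiv.one_apply] at h4
    exact h4
  have hττ : τ (τ x) = x := by
    have h2 : χ (τ * τ) = false := by
      rw [hm, hτ']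
      rfl
    have h3 := hx _ h2
    rwa [AlgEquiv.mul_apply] at h3
  have hσ0 : ∀ σ : Gal k, χ σ = false → σ s = s := by
    intro σ hσ
    rw [hs, map_sub, hx σ hσ, hfixτ σ hσ]
  have hτs : τ s = -s := by
    rw [hs, map_sub, hττ]
    ring
  have hσ1 : ∀ σ : Gal k, χ σ = true → σ s = -s := by
    intro σ hσ
    have h2 : χ (τ⁻¹ * σ) = false := by
      rw [hm, hinv, hσ, hτ']
      rfl
    have h3 := hσ0 _ h2
    rw [AlgEquiv.mul_apply] at h3
    have h4 := congrArg τ h3
    rw [← AlgEquiv.mul_apply τ τ⁻¹, mul_inv_cancel, AlgEquiv.one_apply, hτs] at h4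
    exact h4
  obtain ⟨q, hq⟩ : ∃ q : k, algebraMap k (AlgebraicClosure k) q = s ^ 2 := by
    apply fix_mem
    intro σ
    rw [map_pow]
    cases h : χ σ
    · rw [hσ0 σ h]
    · rw [hσ1 σ h]
      ring
  have hq0 : q ≠ 0 := by
    rintro rfl
    rw [map_zero] at hq
    exact hs0 (pow_eq_zero_iff two_ne_zero |>.1 hq.symm)
  refine ⟨q, hq0, fun t ht σ => ?_⟩
  have h5 : t ^ 2 = s ^ 2 := by rw [ht, hq]
  have h6 : σ t = t ↔ σ s = s := by
    rcases sq_eq_sq_iff_eq_or_eq_neg.1 h5 with h8 | h8
    · rw [h8]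
    · rw [h8, map_neg, neg_inj]
  rw [h6]
  cases h : χ σ
  · simp [hσ0 σ h]
  · simp only [reduceCtorEq, iff_false]
    rw [hσ1 σ h]
    intro h9
    apply hs0
    have h10 : (2 : AlgebraicClosure k) * s = 0 := by linear_combination -h9
    exact (mul_eq_zero.1 h10).resolve_left two_ne_zero

end Run7.h919.XK
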