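import Pool.Agent.Run7.h135.XK.Stm
import Pool.Agent.Run7.h919.XK.Gen

/-!
# Classes killed by two are given by pairs
-/

set_option autoImplicit false

open WeierstrassCurve

namespace Run7.h919.XK

open Pool.Agent.TH841.SH.D (Pt act Gal Coch IsCoc IsCob LocTriv cob)
open Pool.Agent.TH841.SH (IsR IsX isX_zero isX_some not_isX fix_mem)
open Pool.Agent.TH841.NF (coc_fin coc_of_fin act_some')
open Run7.h135.XK (tp Fl Cc S_REP)

variable {k : Type} [Field k]

lemma act_mul (W : WeierstrassCurve k) (σ τ : Gal k) (P : Pt W (AlgebraicClosure k)) :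
    act W (σ * τ).toAlgHom P = act W σ.toAlgHom (act W τ.toAlgHom P) := by
  rcases P with _ | ⟨x, y, h⟩
  · rfl
  · rfl

/-- a point is fixed by the automorphisms that fix its coordinates -/
lemma pt_fin (W : WeierstrassCurve k) (Q : Pt W (AlgebraicClosure k)) :
    ∃ S : Finset (AlgebraicClosure k), ∀ τ : Gal k, (∀ x ∈ S, τ x = x) → act W τ.toAlgHom Q = Q := by
  classical
  rcases Q with _ | ⟨x, y, h⟩
  · exact ⟨∅, fun _ _ => rfl⟩
  · refine ⟨{x, y}, fun τ hτ => ?_⟩
    rw [act_some']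
    have hx : τ x = x := hτ x (by simp)
    have hy : τ y = y := hτ y (by simp)
    congr 1

/-- the flag and one square root -/
lemma Fl_iff [CharZero k] {a : k} (s : AlgebraicClosure k) (hs : s ^ 2 = algebraMap k _ a) (σ : Gal k) :
    Fl a σ ↔ σ s ≠ s := by
  constructor
  · rintro ⟨t, ht, hne⟩ h
    apply hne
    rcases sq_eq_sq_iff_eq_or_eq_neg.1 (ht.trans hs.symm) with e | e
    · rw [e, h]
    · rw [e, map_neg, h]
  · intro h
    exact ⟨s, hs, h⟩

lemma exists_sq (a : k) : ∃ s : AlgebraicClosure k, s ^ 2 = algebraMap k _ a :=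
  IsAlgClosed.exists_pow_nat_eq _ two_pos

theorem t_REP : S_REP := by
  classical
  intro k _ _ W e0 e1 e2 h h01 h02 h12 f hf hcob
  obtain ⟨P, hP⟩ := hcob
  obtain ⟨Q, hQ⟩ : ∃ Q : Pt W (AlgebraicClosure k), P = Q + Q := by
    let _ : DecidableEq (AlgebraicClosure k) := Classical.decEq _
    exact (base h _).div two_ne_zero (alg_ne h01) (alg_ne h02) (alg_ne h12) P
  -- the cocycle with values in the points of order two
  set g : Coch W := fun σ => f σ - (act W σ.toAlgHom Q - Q) with hg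
  have hg2 : ∀ σ, g σ + g σ = 0 := by
    intro σ
    have e1 : f σ + f σ = act W σ.toAlgHom P - P := hP σ
    rw [hQ, map_add] at e1
    have e2 : g σ + g σ = f σ + f σ - (act W σ.toAlgHom Q + act W σ.toAlgHom Q - (Q + Q)) := by
      simp only [hg]
      abel
    rw [e2, e1, sub_self]
  have hgm0 : ∀ σ τ : Gal k, g (σ * τ) = g σ + act W σ.toAlgHom (g τ) := by
    intro σ τ
    simp only [hg]
    rw [hf.2, act_mul, map_sub, map_sub]
    abel
  have hgm : ∀ σ τ : Gal k, g (σ * τ) = g σ + g τ := by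
    intro σ τ
    rw [hgm0, act_two h h01 h02 h12 _ (hg2 τ)]
  have hgc : IsCoc W g := by
    obtain ⟨S, hS⟩ := coc_fin hf
    obtain ⟨S', hS'⟩ := pt_fin W Q
    refine coc_of_fin hgm0 (S ∪ S') fun τ hτ => ?_
    simp only [hg]
    rw [hS τ fun x hx => hτ x (Finset.mem_union_left _ hx),
      hS' τ fun x hx => hτ x (Finset.mem_union_right _ hx), sub_self, sub_zero]
  -- the two characters
  have key : ∀ e e' e'' : k, IsR W e e' e'' → e ≠ e' → e ≠ e'' → e' ≠ e'' →
      ∃ a : k, a ≠ 0 ∧ ∀ σ : Gal k,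
        (Fl a σ ↔ ¬ IsX (W.baseChange (AlgebraicClosure k)) (algebraMap k _ e) (g σ)) := by
    intro e e' e'' he h1 h2 h3
    obtain ⟨a, ha, hk⟩ := kum (k := k)
      (fun σ => decide (¬ IsX (W.baseChange (AlgebraicClosure k)) (algebraMap k _ e) (g σ)))
      (hgc.1.comp fun T => decide (¬ IsX (W.baseChange (AlgebraicClosure k)) (algebraMap k _ e) T))
      (by
        intro σ τ
        have e1 := pt_add2 he h1 h2 h3 (hg2 σ) (hg2 τ)
        rw [← hgm] at e1
        by_cases p : IsX (W.baseChange (AlgebraicClosure k)) (algebraMap k _ e) (g σ) <;>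
          by_cases q : IsX (W.baseChange (AlgebraicClosure k)) (algebraMap k _ e) (g τ) <;>
          simp [p, q, e1])
    obtain ⟨s, hs⟩ := exists_sq a
    refine ⟨a, ha, fun σ => ?_⟩
    rw [Fl_iff s hs, Ne, hk s hs]
    simp
  obtain ⟨a, ha, hka⟩ := key e0 e1 e2 h h01 h02 h12
  obtain ⟨b, hb, hkb⟩ := key e1 e0 e2 h.swap h01.symm h12 h02
  refine ⟨a, b, ha, hb, Q, fun σ => ?_⟩
  have e : g σ = Cc W e0 e1 a b σ := by
    refine pt_ext2 h h01 h02 h12 (hg2 σ) (Cc_two h h01 h02 h12 a b σ) ?_ ?_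
    · rw [Cc_isX0 h h01 h02 h12, hka, not_not]
    · rw [Cc_isX1 h h01 h02 h12, hkb, not_not]
  change f σ - Cc W e0 e1 a b σ = _
  rw [← e]
  simp only [hg]
  abel

end Run7.h919.XK
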